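import Mathlib
import Pool.Agent.R39.RB.Defs
import Pool.Agent.R39.RB.Final

/-! Biclique-free classes with bounded reduced bandwidth have polynomial (indeed linear)
expansion. -/

namespace Pool.Agent.Results.MP_271714_co.PolynomialExpansion

open Pool.Agent.R39.RB

/-- There are `s, t ≥ 1` such that no member of the class contains `K_{s,t}` as a subgraph. -/
def ExcludesBiclique (C : GraphClass) : Prop :=
  ∃ s t : ℕ, 1 ≤ s ∧ 1 ≤ t ∧ ∀ G ∈ C, (completeBipartiteGraph (Fin s) (Fin t)).Free G.2

/-- Every `r`-shallow minor `H` of a member of the class has at most `p(r) |V(H)|` edges, i.e.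
`∇_r(G) ≤ p(r)` for all members `G` and all `r`. -/
def ExpansionBoundedBy (C : GraphClass) (p : Polynomial ℝ) : Prop :=
  ∀ G ∈ C, ∀ (r m : ℕ) (H : SimpleGraph (Fin m)), IsShallowMinor r G.2 H →
    (H.edgeSet.ncard : ℝ) ≤ p.eval (r : ℝ) * m

/-- Every graph class (monotone or not) that excludes a fixed complete bipartite subgraph and has
bounded reduced bandwidth has polynomial expansion; the polynomial can even be taken linear. -/
theorem result (C : GraphClass) (hK : ExcludesBiclique C) (hB : BoundedReducedBandwidth C) :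
    ∃ p : Polynomial ℝ, p.natDegree ≤ 1 ∧ ExpansionBoundedBy C p := by
  obtain ⟨s, t, -, -, ht⟩ := hK
  obtain ⟨k, hk⟩ := hB
  set c : ℕ := (2 * k + 5) * (max s t * (8 * k + 1) + 1) with hc
  refine ⟨Polynomial.C (c : ℝ) * Polynomial.X + Polynomial.C (c : ℝ),
    Polynomial.natDegree_linear_le, ?_⟩
  intro G hG r m H hH
  have h1 := shallow_bound (free_of_bound (ht G hG)) (hk G hG) hH
  rw [Fintype.card_fin] at h1
  have h2 := h1.trans (Nat.mul_le_mul_right m (const_le k (max s t) r))
  rw [← hc] at h2
  have h3 : (H.edgeSet.ncard : ℝ) ≤ (c : ℝ) * ((r : ℝ) + 1) * m := by exact_mod_cast h2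
  refine h3.trans (le_of_eq ?_)
  simp only [Polynomial.eval_add, Polynomial.eval_mul, Polynomial.eval_C, Polynomial.eval_X]
  ring

end Pool.Agent.Results.MP_271714_co.PolynomialExpansion
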